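import Pool.Agent.H68.LCS.Targets

/-!
# MP_5607ba_lc, strong transfer, part A, row LIT

The countable subbase of the space of the closed invariant sets and its closed companions.
-/

set_option autoImplicit false

open Set Filter Topology
open scoped Pointwise

namespace Pool.Agent.H30.LCS

open Pool.Agent.H93.CP Pool.Agent.H7.LP Pool.Agent.H7.LQ Pool.Agent.H68.LCS

/-- LIT. -/
theorem pf_LIT : T_LIT := by
  intro G _ _ _ R P
  refine ⟨?_, ?_, ?_⟩
  · rintro y n i ⟨a, ha, hai⟩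
    obtain ⟨d, hd, r, hr, had⟩ := P.cov i a hai
    refine ⟨d, ?_, hd⟩
    have h1 := y.inv n a ha r⁻¹ (R.inv_mem hr)
    rw [had, mul_inv_cancel_right] at h1
    exact h1
  · rintro y n U hU ⟨a, ha, haU⟩
    obtain ⟨i, hai, hi⟩ := P.bas a U hU haU
    refine ⟨i, ⟨a, ha, hai⟩, ?_⟩
    rintro z ⟨d, hd, hdi⟩
    obtain ⟨r, hr, hdr⟩ := hi d hdi
    exact ⟨d * r, z.inv n d hd r hr, hdr⟩
  · intro y n D hD hyD
    classical
    have h1 : ∀ a ∈ D, ∃ i, a ∈ P.U i ∧ ¬ (y.y n ∩ P.D i).Nonempty := by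
      intro a ha
      have h2 : a ∈ (y.y n)ᶜ := fun h => hyD ⟨a, h, ha⟩
      obtain ⟨i, hai, hi⟩ := P.bas a _ (y.cl n).isOpen_compl h2
      refine ⟨i, hai, ?_⟩
      rintro ⟨d, hd, hdi⟩
      obtain ⟨r, hr, hdr⟩ := hi d hdi
      exact hdr (y.inv n d hd r hr)
    let J : Set ℕ := {i | ¬ (y.y n ∩ P.D i).Nonempty}
    have h3 : D ⊆ ⋃ i : J, P.U i := by
      intro a ha
      obtain ⟨i, hai, hi⟩ := h1 a ha
      exact mem_iUnion.2 ⟨⟨i, hi⟩, hai⟩
    obtain ⟨t, ht⟩ := hD.elim_finite_subcover (fun i : J => P.U i) (fun i => P.opn i) h3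
    refine ⟨t.image Subtype.val, ?_, ?_, ?_⟩
    · intro i hi
      obtain ⟨j, _, rfl⟩ := Finset.mem_image.1 hi
      exact j.2
    · intro a ha
      obtain ⟨j, hj, haj⟩ := mem_iUnion₂.1 (ht ha)
      exact ⟨j, Finset.mem_image_of_mem _ hj, haj⟩
    · rintro z hz ⟨a, ha, haD⟩
      obtain ⟨j, hj, haj⟩ := mem_iUnion₂.1 (ht haD)
      exact hz j (Finset.mem_image_of_mem _ hj) ⟨a, ha, haj⟩

end Pool.Agent.H30.LCS
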