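import Pool.Agent.H90.CS.Targets

/-!
# MP_232a1c_nt, row SVD: the density of the survivors
-/

set_option autoImplicit false

open Finset

namespace Pool.Agent.H30.LCS

open Pool.Agent.H44.MS Pool.Agent.H90.LC Pool.Agent.H90.CS

/-- The residues modulo a product of coprime moduli with prescribed residues. -/
theorem card_res (m : ℕ → ℕ) (Ω : ℕ → Finset ℕ) (T : Finset ℕ) (hm : ∀ p ∈ T, 0 < m p)
    (hco : ∀ p ∈ T, ∀ q ∈ T, p ≠ q → Nat.Coprime (m p) (m q)) :
    ((range (∏ p ∈ T, m p)).filter (fun r => ∀ p ∈ T, r % m p ∈ Ω p)).card ≤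
      ∏ p ∈ T, (Ω p).card := by
  classical
  induction T using Finset.induction_on with
  | empty => simp
  | insert q T hq ih =>
    have ih' := ih (fun p hp => hm p (mem_insert_of_mem hp))
      (fun p hp r hr => hco p (mem_insert_of_mem hp) r (mem_insert_of_mem hr))
    have hcop : Nat.Coprime (m q) (∏ p ∈ T, m p) := by
      apply Nat.Coprime.prod_right
      intro p hp
      exact hco q (mem_insert_self q T) p (mem_insert_of_mem hp) (fun h => hq (h ▸ hp))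
    have hTpos : 0 < ∏ p ∈ T, m p :=
      Finset.prod_pos (fun p hp => hm p (mem_insert_of_mem hp))
    rw [prod_insert hq, prod_insert hq]
    refine le_trans ?_ (Nat.mul_le_mul_left _ ih')
    rw [← card_product]
    apply card_le_card_of_injOn (fun r => (r % m q, r % ∏ p ∈ T, m p))
    · intro r hr
      rw [mem_coe, mem_filter, mem_range] at hr
      rw [mem_coe, mem_product, mem_filter, mem_range]
      refine ⟨hr.2 q (mem_insert_self q T), Nat.mod_lt _ hTpos, ?_⟩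
      intro p hp
      show r % (∏ p ∈ T, m p) % m p ∈ Ω p
      rw [Nat.mod_mod_of_dvd _ (dvd_prod_of_mem _ hp)]
      exact hr.2 p (mem_insert_of_mem hp)
    · intro a ha b hb hab
      rw [mem_coe, mem_filter, mem_range] at ha hb
      have hab' := Prod.mk.inj hab
      have h1 : a ≡ b [MOD m q * ∏ p ∈ T, m p] :=
        (Nat.modEq_and_modEq_iff_modEq_mul hcop).mp ⟨hab'.1, hab'.2⟩
      exact Nat.ModEq.eq_of_lt_of_lt h1 ha.1 hb.1

/-- The numbers with prescribed residues. -/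
theorem card_le_mod (U d : ℕ) (G : Finset ℕ) :
    ((range U).filter (fun u => u % d ∈ G)).card ≤ G.card * (U / d + 1) := by
  classical
  have h : (G ×ˢ range (U / d + 1)).card = G.card * (U / d + 1) := by
    rw [card_product, card_range]
  rw [← h]
  apply card_le_card_of_injOn (fun r => (r % d, r / d))
  · intro r hr
    rw [mem_coe, mem_filter, mem_range] at hr
    rw [mem_coe, mem_product, mem_range]
    exact ⟨hr.2, Nat.lt_succ_of_le (Nat.div_le_div_right hr.1.le)⟩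
  · intro a _ b _ hab
    have hab' := Prod.mk.inj hab
    rw [← Nat.div_add_mod a d, ← Nat.div_add_mod b d, hab'.1, hab'.2]

/-- The bad residues modulo `p ^ 2`. -/
def Bd (p : ℕ) : Finset ℕ :=
  (((range p).erase (p / 2)) ×ˢ range 2).image (fun x => p / 2 + x.2 + p * x.1)

theorem half {p : ℕ} (h3 : 3 ≤ p) (h2 : p % 2 = 1) : 2 * (p / 2) + 1 = p ∧ p / 2 + 1 < p := by
  omega

theorem Bd_card {p : ℕ} (h3 : 3 ≤ p) (h2 : p % 2 = 1) : (Bd p).card = (p - 1) * 2 := by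
  have hh := half h3 h2
  unfold Bd
  rw [card_image_of_injOn]
  · rw [card_product, card_erase_of_mem (mem_range.mpr (by omega)), card_range, card_range]
  · rintro ⟨t, e⟩ hx ⟨t', e'⟩ hx' h
    rw [mem_coe, mem_product, mem_range] at hx hx'
    have h' : p / 2 + e + p * t = p / 2 + e' + p * t' := h
    have he : e < 2 := hx.2
    have he' : e' < 2 := hx'.2
    have hlt : p / 2 + e < p := by omega
    have hlt' : p / 2 + e' < p := by omega
    have hm := congrArg (fun n => n % p) h'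
    simp only [Nat.add_mul_mod_self_left, Nat.mod_eq_of_lt hlt, Nat.mod_eq_of_lt hlt'] at hm
    have hd := congrArg (fun n => n / p) h'
    simp only [Nat.add_mul_div_left _ _ (show 0 < p by omega), Nat.div_eq_of_lt hlt,
      Nat.div_eq_of_lt hlt', zero_add] at hd
    rw [Prod.mk.injEq]
    exact ⟨hd, by omega⟩

theorem Bd_sub {p : ℕ} (h3 : 3 ≤ p) (h2 : p % 2 = 1) : Bd p ⊆ range (p ^ 2) := by
  have hh := half h3 h2
  intro r hr
  unfold Bd at hr
  rw [mem_image] at hr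
  obtain ⟨⟨t, e⟩, hx, rfl⟩ := hr
  rw [mem_product, mem_erase, mem_range, mem_range] at hx
  have he : e < 2 := hx.2
  have ht : t + 1 ≤ p := hx.1.2
  have h4 : p * (t + 1) ≤ p * p := Nat.mul_le_mul_left p ht
  rw [mem_range]
  show p / 2 + e + p * t < p ^ 2
  rw [sq]
  nlinarith [hh.2]

/-- A bad residue is not a survivor. -/
theorem bad {p u : ℕ} (hp : p.Prime) (h3 : 3 ≤ p) (h2 : p % 2 = 1) (hu : 1 ≤ u)
    (hb : u % p ^ 2 ∈ Bd p)
    (h : p ∣ (2 * u - 1) * (2 * u + 1) → p ^ 2 ∣ (2 * u - 1) * (2 * u + 1)) : False := by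
  have hh := half h3 h2
  unfold Bd at hb
  rw [mem_image] at hb
  obtain ⟨⟨t, e⟩, hx, hr⟩ := hb
  rw [mem_product, mem_erase, mem_range, mem_range] at hx
  have hr' : p / 2 + e + p * t = u % p ^ 2 := hr
  have he : e < 2 := hx.2
  have ht : t < p := hx.1.2
  have htm : t ≠ p / 2 := hx.1.1
  have hu' : u = p / 2 + e + p * t + p ^ 2 * (u / p ^ 2) := by
    rw [hr']
    exact (Nat.mod_add_div u (p ^ 2)).symm
  set s := u / p ^ 2 with hs
  set a := 1 + 2 * t + 2 * p * s with ha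
  have hpa : p * a = p + 2 * (p * t) + 2 * (p ^ 2 * s) := by
    rw [ha]
    ring
  have key : ∀ b : ℕ, (b = p * a + 2 ∨ b + 2 = p * a) → (2 * u - 1) * (2 * u + 1) = p * (a * b) →
      False := by
    intro b hb hprod
    have h1 : p ∣ (2 * u - 1) * (2 * u + 1) := by
      rw [hprod]
      exact Dvd.intro _ rfl
    have h4 := h h1
    rw [hprod, sq] at h4
    have h5 : p ∣ a * b := Nat.dvd_of_mul_dvd_mul_left hp.pos h4
    rcases (hp.dvd_mul).mp h5 with h6 | h6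
    · have h7 : p ∣ 1 + 2 * t := by
        have h8 : p ∣ 2 * p * s := ⟨2 * s, by ring⟩
        exact (Nat.dvd_add_left h8).mp h6
      obtain ⟨c, hc⟩ := h7
      have hc2 : c < 2 := by
        by_contra hcc
        have : p * 2 ≤ p * c := Nat.mul_le_mul_left p (by omega)
        omega
      interval_cases c <;> omega
    · have h7 : p ∣ 2 := by
        rcases hb with hb | hb
        · rw [hb] at h6
          exact (Nat.dvd_add_right (Dvd.intro _ rfl)).mp h6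
        · have h8 : p ∣ b + 2 := by
            rw [hb]
            exact Dvd.intro _ rfl
          exact (Nat.dvd_add_right h6).mp h8
      have := Nat.le_of_dvd (by norm_num) h7
      omega
  have he2 : e = 0 ∨ e = 1 := by omega
  rcases he2 with rfl | rfl
  · have e1 : 2 * u + 1 = p * a := by omega
    refine key (2 * u - 1) (Or.inr (by omega)) ?_
    rw [e1]
    ring
  · have e1 : 2 * u - 1 = p * a := by omega
    refine key (2 * u + 1) (Or.inl (by omega)) ?_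
    rw [e1]
    ring

/-- The moduli. -/
def md (p : ℕ) : ℕ := if p = 2 then 2 else p ^ 2

/-- The good residues. -/
def Og (p : ℕ) : Finset ℕ := if p = 2 then {1} else range (p ^ 2) \ Bd p

theorem mem_P3 {y p : ℕ} (h : p ∈ P3 y) : p.Prime ∧ p % 4 = 3 ∧ 3 ≤ p ∧ p % 2 = 1 ∧ p ≠ 2 := by
  unfold P3 at h
  rw [mem_filter, mem_Icc] at h
  have h1 := h.2.2
  exact ⟨h.2.1, h1, by omega, by omega, by omega⟩

theorem two_notMem (y : ℕ) : 2 ∉ P3 y := fun h => (mem_P3 h).2.2.2.2 rfl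

theorem md_P3 {y p : ℕ} (h : p ∈ P3 y) : md p = p ^ 2 := if_neg (mem_P3 h).2.2.2.2
theorem Og_P3 {y p : ℕ} (h : p ∈ P3 y) : Og p = range (p ^ 2) \ Bd p :=
  if_neg (mem_P3 h).2.2.2.2

theorem Og_card {y p : ℕ} (h : p ∈ P3 y) :
    ((Og p).card : ℝ) ≤ (p : ℝ) ^ 2 * ((1 - 1 / (p : ℝ)) ^ 2 * (1 + 3 / (p : ℝ) ^ 2)) := by
  have hp := mem_P3 h
  rw [Og_P3 h, card_sdiff_of_subset (Bd_sub hp.2.2.1 hp.2.2.2.1), card_range,
    Bd_card hp.2.2.1 hp.2.2.2.1]
  have h3 : (3 : ℝ) ≤ p := by exact_mod_cast hp.2.2.1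
  have h4 : (p - 1) * 2 ≤ p ^ 2 := by
    have := hp.2.2.1
    obtain ⟨q, rfl⟩ : ∃ q, p = q + 1 := ⟨p - 1, by omega⟩
    simp only [Nat.add_sub_cancel]
    nlinarith
  rw [Nat.cast_sub h4, Nat.cast_mul, Nat.cast_sub (by omega)]
  push_cast
  have h0 : (p : ℝ) ≠ 0 := by linarith
  have e : (p : ℝ) ^ 2 * ((1 - 1 / (p : ℝ)) ^ 2 * (1 + 3 / (p : ℝ) ^ 2)) =
      (p - 1) ^ 2 + 3 * ((1 : ℝ) - 1 / p) ^ 2 := by
    field_simp
  rw [e]
  have h5 : 1 / (p : ℝ) ≤ 1 / 3 := one_div_le_one_div_of_le (by norm_num) h3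
  have h6 : (1 : ℝ) ≤ 3 * (1 - 1 / p) ^ 2 := by nlinarith
  nlinarith

theorem inv_sq_sum (y : ℕ) : ∑ n ∈ Icc 2 y, 3 / (n : ℝ) ^ 2 ≤ 3 := by
  have h : ∀ y : ℕ, 1 ≤ y → ∑ n ∈ Icc 2 y, 3 / (n : ℝ) ^ 2 ≤ 3 - 3 / (y : ℝ) := by
    intro y hy
    induction y, hy using Nat.le_induction with
    | base => norm_num
    | succ n hn ih =>
      rw [sum_Icc_succ_top (by omega)]
      have hn0 : (0 : ℝ) < n := by exact_mod_cast (by omega : 0 < n)
      have h1 : 3 / ((n + 1 : ℕ) : ℝ) ^ 2 ≤ 3 / (n : ℝ) - 3 / ((n + 1 : ℕ) : ℝ) := by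
        push_cast
        rw [div_sub_div _ _ hn0.ne' (by positivity), div_le_div_iff₀ (by positivity) (by positivity)]
        nlinarith
      linarith
  rcases Nat.eq_zero_or_pos y with rfl | hy
  · norm_num
  · have h1 := h y hy
    have h2 : 0 ≤ 3 / (y : ℝ) := by positivity
    linarith

theorem prod_exp (y : ℕ) : ∏ p ∈ P3 y, (1 + 3 / (p : ℝ) ^ 2) ≤ Real.exp 3 := by
  have h1 : ∏ p ∈ P3 y, (1 + 3 / (p : ℝ) ^ 2) ≤ ∏ p ∈ P3 y, Real.exp (3 / (p : ℝ) ^ 2) := by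
    refine prod_le_prod (fun p _ => by positivity) fun p _ => ?_
    have := Real.add_one_le_exp (3 / (p : ℝ) ^ 2)
    linarith
  refine h1.trans ?_
  rw [← Real.exp_sum]
  refine Real.exp_le_exp.mpr (le_trans ?_ (inv_sq_sum y))
  refine sum_le_sum_of_subset_of_nonneg (fun p hp => ?_) fun n _ _ => by positivity
  have h := mem_P3 hp
  unfold P3 at hp
  rw [mem_filter, mem_Icc] at hp
  rw [mem_Icc]
  omega

theorem VA_eq (y : ℕ) : VA (A3 2) y = ∏ p ∈ P3 y, (1 - 1 / (p : ℝ)) := by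
  classical
  unfold VA P3
  rw [prod_filter]
  refine prod_congr rfl fun p _ => ?_
  have hiff : (p.Prime ∧ A3 2 p) ↔ (p.Prime ∧ p % 4 = 3) := by
    unfold A3
    constructor
    · rintro ⟨h1, h2, _⟩
      exact ⟨h1, h2⟩
    · rintro ⟨h1, h2⟩
      exact ⟨h1, h2, by omega⟩
  by_cases h : p.Prime ∧ p % 4 = 3
  · rw [if_pos h]
    unfold ic
    rw [if_pos (hiff.mpr h)]
  · rw [if_neg h]
    unfold ic
    rw [if_neg fun h' => h (hiff.mp h')]
    simp

theorem SV_le (y : ℕ) : ∃ D : ℝ, 0 < D ∧ ∀ B : ℕ, ((SV y B).card : ℝ) ≤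
    B / 2 * ∏ p ∈ P3 y, ((1 - 1 / (p : ℝ)) ^ 2 * (1 + 3 / (p : ℝ) ^ 2)) + D := by
  classical
  set T := insert 2 (P3 y) with hT
  set Q := ∏ p ∈ T, md p with hQ
  have hmd : ∀ p ∈ T, 0 < md p := by
    intro p hp
    rw [hT, mem_insert] at hp
    rcases hp with rfl | hp
    · simp [md]
    · rw [md_P3 hp]
      have := (mem_P3 hp).1.pos
      positivity
  have hco : ∀ p ∈ T, ∀ q ∈ T, p ≠ q → Nat.Coprime (md p) (md q) := by
    have h1 : ∀ p ∈ T, p.Prime := by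
      intro p hp
      rw [hT, mem_insert] at hp
      rcases hp with rfl | hp
      · exact Nat.prime_two
      · exact (mem_P3 hp).1
    intro p hp q hq hpq
    have h2 : Nat.Coprime p q := (Nat.coprime_primes (h1 p hp) (h1 q hq)).mpr hpq
    unfold md
    split_ifs with h3 h4 h4
    · omega
    · exact h3 ▸ h2.pow_right 2
    · exact h4 ▸ h2.pow_left 2
    · exact h2.pow 2 2
  have hQpos : 0 < Q := Finset.prod_pos hmd
  set G := (range Q).filter (fun r => ∀ p ∈ T, r % md p ∈ Og p) with hG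
  have hGc : G.card ≤ ∏ p ∈ T, (Og p).card := card_res md Og T hmd hco
  have hsub : ∀ B : ℕ, SV y B ⊆ (range (B + 1)).filter (fun u => u % Q ∈ G) := by
    intro B u hu
    unfold SV at hu
    rw [mem_filter, mem_Icc] at hu
    rw [mem_filter, mem_range]
    refine ⟨by omega, ?_⟩
    rw [hG, mem_filter, mem_range]
    refine ⟨Nat.mod_lt _ hQpos, fun p hp => ?_⟩
    rw [Nat.mod_mod_of_dvd _ (dvd_prod_of_mem _ hp)]
    rw [hT, mem_insert] at hp
    rcases hp with rfl | hp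
    · have : u % md 2 = 1 := hu.2.1
      rw [this]
      simp [Og]
    · have hpp := mem_P3 hp
      rw [md_P3 hp, Og_P3 hp, mem_sdiff, mem_range]
      refine ⟨Nat.mod_lt _ (by have := hpp.1.pos; positivity), fun hb => ?_⟩
      exact bad hpp.1 hpp.2.2.1 hpp.2.2.2.1 hu.1.1 hb (hu.2.2 p hp)
  have hQ0 : (0 : ℝ) < Q := by exact_mod_cast hQpos
  have hratio : (G.card : ℝ) / Q ≤
      1 / 2 * ∏ p ∈ P3 y, ((1 - 1 / (p : ℝ)) ^ 2 * (1 + 3 / (p : ℝ) ^ 2)) := by
    rw [div_le_iff₀ hQ0]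
    have h1 : (G.card : ℝ) ≤ ∏ p ∈ P3 y, ((Og p).card : ℝ) := by
      have h2 : ∏ p ∈ T, (Og p).card = ∏ p ∈ P3 y, (Og p).card := by
        rw [hT, prod_insert (two_notMem y)]
        simp [Og]
      rw [h2] at hGc
      exact_mod_cast hGc
    have h3 : (Q : ℝ) = 2 * ∏ p ∈ P3 y, (p : ℝ) ^ 2 := by
      rw [hQ, hT, prod_insert (two_notMem y)]
      have h4 : ∏ p ∈ P3 y, md p = ∏ p ∈ P3 y, p ^ 2 := prod_congr rfl fun p hp => md_P3 hp
      rw [h4]
      push_cast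
      simp [md]
    rw [h3]
    have h5 : 1 / 2 * (∏ p ∈ P3 y, ((1 - 1 / (p : ℝ)) ^ 2 * (1 + 3 / (p : ℝ) ^ 2))) *
        (2 * ∏ p ∈ P3 y, (p : ℝ) ^ 2) =
        ∏ p ∈ P3 y, ((p : ℝ) ^ 2 * ((1 - 1 / (p : ℝ)) ^ 2 * (1 + 3 / (p : ℝ) ^ 2))) := by
      rw [prod_mul_distrib (f := fun p : ℕ => (p : ℝ) ^ 2)]
      ring
    rw [h5]
    exact h1.trans (prod_le_prod (fun p _ => Nat.cast_nonneg _) fun p hp => Og_card hp)
  refine ⟨G.card * (1 / Q + 1) + 1, by positivity, fun B => ?_⟩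
  have h1 := card_le_card (hsub B)
  have h2 := h1.trans (card_le_mod (B + 1) Q G)
  have h3 : ((SV y B).card : ℝ) ≤ G.card * (((B + 1 : ℕ) : ℝ) / Q + 1) := by
    have h4 : ((SV y B).card : ℝ) ≤ ((G.card * ((B + 1) / Q + 1) : ℕ) : ℝ) := by exact_mod_cast h2
    refine h4.trans ?_
    rw [Nat.cast_mul, Nat.cast_add, Nat.cast_one]
    have h5 : (((B + 1) / Q : ℕ) : ℝ) ≤ ((B + 1 : ℕ) : ℝ) / Q := Nat.cast_div_le
    exact mul_le_mul_of_nonneg_left (by linarith) (Nat.cast_nonneg _)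
  have h6 : (G.card : ℝ) * (((B + 1 : ℕ) : ℝ) / Q + 1) =
      (G.card : ℝ) / Q * B + G.card * (1 / Q + 1) := by
    push_cast
    ring
  have h7 : (G.card : ℝ) / Q * B ≤
      (1 / 2 * ∏ p ∈ P3 y, ((1 - 1 / (p : ℝ)) ^ 2 * (1 + 3 / (p : ℝ) ^ 2))) * B :=
    mul_le_mul_of_nonneg_right hratio (Nat.cast_nonneg _)
  have h8 : (1 / 2 * ∏ p ∈ P3 y, ((1 - 1 / (p : ℝ)) ^ 2 * (1 + 3 / (p : ℝ) ^ 2))) * (B : ℝ) =
      B / 2 * ∏ p ∈ P3 y, ((1 - 1 / (p : ℝ)) ^ 2 * (1 + 3 / (p : ℝ) ^ 2)) := by ring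
  linarith

theorem pf_SVD (hVV : T_VV) : T_SVD := by
  obtain ⟨c, C, hc, hC, hV⟩ := hVV
  refine ⟨Real.exp 3 * C ^ 2, by positivity, fun y hy => ?_⟩
  obtain ⟨D, hD, h⟩ := SV_le y
  refine ⟨D, hD, fun B => (h B).trans ?_⟩
  have hlog : 0 < Real.log y := Real.log_pos (by exact_mod_cast (by omega : 1 < y))
  have hpos : ∀ p ∈ P3 y, 0 ≤ 1 - 1 / (p : ℝ) := by
    intro p hp
    have h3 : (3 : ℝ) ≤ p := by exact_mod_cast (mem_P3 hp).2.2.1
    have : 1 / (p : ℝ) ≤ 1 / 3 := one_div_le_one_div_of_le (by norm_num) h3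
    linarith
  have h1 : ∏ p ∈ P3 y, ((1 - 1 / (p : ℝ)) ^ 2 * (1 + 3 / (p : ℝ) ^ 2)) ≤
      C ^ 2 * (Real.log 2 / Real.log y) * Real.exp 3 := by
    rw [prod_mul_distrib, prod_pow, ← VA_eq]
    have h2 := (hV 2 y le_rfl (by omega)).2
    have h3 : 0 ≤ VA (A3 2) y := by
      rw [VA_eq]
      exact prod_nonneg hpos
    have h4 : VA (A3 2) y ^ 2 ≤ C ^ 2 * (Real.log 2 / Real.log y) := by
      have h5 := pow_le_pow_left₀ h3 h2 2
      rw [mul_pow, Real.sq_sqrt (by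
        have := Real.log_nonneg (show (1 : ℝ) ≤ (2 : ℕ) by norm_num)
        positivity)] at h5
      exact_mod_cast h5
    refine mul_le_mul h4 (prod_exp y) (prod_nonneg fun p _ => by positivity) ?_
    have := Real.log_nonneg (show (1 : ℝ) ≤ 2 by norm_num)
    positivity
  have h2 : (B : ℝ) / 2 * ∏ p ∈ P3 y, ((1 - 1 / (p : ℝ)) ^ 2 * (1 + 3 / (p : ℝ) ^ 2)) ≤
      B / 2 * (C ^ 2 * (Real.log 2 / Real.log y) * Real.exp 3) :=
    mul_le_mul_of_nonneg_left h1 (by positivity)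
  have h3 : (B : ℝ) / 2 * (C ^ 2 * (Real.log 2 / Real.log y) * Real.exp 3) =
      (Real.log 2 / 2) * (Real.exp 3 * C ^ 2 * B / Real.log y) := by ring
  have h4 : Real.log 2 / 2 ≤ 1 := by
    have := Real.log_two_lt_d9
    linarith
  have h5 : 0 ≤ Real.exp 3 * C ^ 2 * B / Real.log y := by positivity
  nlinarith

end Pool.Agent.H30.LCS
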